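import Pool.Agent.Lib.helper20.QCNF

set_option autoImplicit false
set_option linter.unusedSectionVars false
open Finset Matrix

namespace Pool.Agent.H.MP_4f0cf1_nt

lemma pm_sum (r : ℂ) (s : Multiset ℂ) (h : ∀ a ∈ s, a = r ∨ a = -r) :
    ∃ k : ℕ, s.sum = r * (s.card - 2 * k) ∧ s.prod = r ^ s.card * (-1) ^ k := by
  induction s using Multiset.induction_on with
  | empty => exact ⟨0, by simp⟩
  | cons a s ih =>
    obtain ⟨k, h1, h2⟩ := ih fun b hb => h b (Multiset.mem_cons_of_mem hb)
    simp only [Multiset.sum_cons, Multiset.prod_cons, Multiset.card_cons, h1, h2]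
    rcases h a (Multiset.mem_cons_self _ _) with rfl | rfl
    · exact ⟨k, by push_cast; ring, by ring⟩
    · exact ⟨k + 1, by push_cast; ring, by ring⟩

lemma det_sq {m : Type*} [Fintype m] [DecidableEq m] (B : Matrix m m ℂ) (r : ℂ)
    (h : B * B = (r * r) • 1) : ∃ k : ℕ, B.trace = r * (Fintype.card m - 2 * k) ∧
      B.det = r ^ Fintype.card m * (-1) ^ k := by
  have := pm_sum r B.charpoly.roots fun a ha => by
    have h1 := (Polynomial.mem_roots B.charpoly_monic.ne_zero).1 ha
    rw [Polynomial.IsRoot, eval_charpoly] at h1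
    have h2 : (scalar m a - B) * (scalar m a + B) = (a * a - r * r) • 1 := by
      rw [scalar_apply, ← smul_one_eq_diagonal]
      simp only [mul_add, sub_mul, h, smul_mul_assoc, mul_smul_comm, one_mul, mul_one, sub_smul,
        mul_smul]
      module
    have h3 := congrArg det h2
    rw [det_mul, h1, zero_mul, det_smul, det_one, mul_one] at h3
    exact mul_self_eq_mul_self_iff.1 (sub_eq_zero.1 (pow_eq_zero_iff'.1 h3.symm).1)
  rwa [IsAlgClosed.card_roots_eq_natDegree, charpoly_natDegree_eq_dim,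
    ← trace_eq_sum_roots_charpoly, ← det_eq_prod_roots_charpoly] at this

lemma upd {m k R : Type*} [Fintype m] [DecidableEq m] [Fintype k] [DecidableEq k] [CommRing R]
    (T : Matrix m m R) (U W : Matrix m k R) (V : Matrix k m R) (h : T * U = W) :
    (T + W * V).det = T.det * (1 + V * U).det := by
  rw [← det_one_add_mul_comm, ← det_mul, mul_add, mul_one, ← h, Matrix.mul_assoc]

lemma sym_sum {m : Type*} [DecidableEq m] (f : m → m → ℤ) (h : ∀ j k, f j k = f k j)
    (s : Finset m) : ∃ d : ℤ, ∑ j ∈ s, ∑ k ∈ s, f j k = ∑ j ∈ s, f j j + 2 * d := by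
  induction s using Finset.induction_on with
  | empty => exact ⟨0, by simp⟩
  | insert a s ha ih =>
    obtain ⟨d, hd⟩ := ih
    refine ⟨d + ∑ j ∈ s, f a j, ?_⟩
    simp only [sum_insert ha, sum_add_distrib, hd, h _ a]
    ring

variable {p n : ℕ} [Fact p.Prime] (R : Type*) [CommRing R]

/-- The quadratic character with values in `R`. -/
def c (a : ZMod p) : R := (quadraticChar (ZMod p) a : ℤ)

/-- The residue `j + 1`. -/
def e (p : ℕ) (j : Fin n) : ZMod p := (j : ℕ) + 1

/-- The basic matrix. -/
def A (p n : ℕ) [Fact p.Prime] (s : ℤ) : Matrix (Fin n) (Fin n) R :=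
  of fun j k => c R (e p j + e p k) + s * c R (e p j - e p k)

lemma A_map (s : ℤ) : (A R p n s).det = ((A ℤ p n s).det : ℤ) := by
  rw [Int.cast_det]
  congr 1
  ext j k
  simp [A, c]

variable {R}

lemma c_mul (a b : ZMod p) : c R (a * b) = c R a * c R b := by
  rw [c, map_mul, Int.cast_mul, c, c]

@[simp] lemma c_zero : c R (0 : ZMod p) = 0 := by simp [c]

@[simp] lemma c_one : c R (1 : ZMod p) = 1 := by simp [c]

lemma c_sq {a : ZMod p} (h : a ≠ 0) : c R a * c R a = 1 := by
  rw [c, ← Int.cast_mul, ← sq, quadraticChar_sq_one h, Int.cast_one]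

lemma c_neg (a : ZMod p) : c R (-a) = c R (-1 : ZMod p) * c R a := by rw [← c_mul, neg_one_mul]

lemma c_leg (a : ℤ) : (legendreSym p a : R) = c R (a : ZMod p) := rfl

lemma c_m1 (h : p % 4 = 1) (a : ZMod p) : c R (-a) = c R a := by
  have := c_leg (R := R) (p := p) (-1)
  rw [legendreSym.at_neg_one (by omega), ZMod.χ₄_nat_one_mod_four h] at this
  push_cast at this
  rw [c_neg, ← this, one_mul]

lemma c_m3 (h : p % 4 = 3) (a : ZMod p) : c R (-a) = -c R a := by
  have := c_leg (R := R) (p := p) (-1)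
  rw [legendreSym.at_neg_one (by omega), ZMod.χ₄_nat_three_mod_four h] at this
  push_cast at this
  rw [c_neg, ← this, neg_one_mul]

variable (hp : p = 2 * n + 1)
include hp

lemma rc : ringChar (ZMod p) ≠ 2 := by rw [ZMod.ringChar_zmod_n]; omega

lemma c_sum (u w : ZMod p) (hu : u ≠ 0) : ∑ a, c R (w + u * a) = 0 := by
  have := congrArg (Int.cast : ℤ → R) (quadraticChar_sum_zero (rc hp))
  rw [← Equiv.sum_comp ((Equiv.mulLeft₀ u hu).trans (Equiv.addLeft w))] at this
  simpa [c] using this

lemma jac (u w : ZMod p) : ∑ a, c R (u + a) * c R (w + a) = (if u = w then (p : R) else 0) - 1 := by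
  split_ifs with h
  · rw [← h, ← Equiv.sum_comp (Equiv.addLeft (-u)), ← sum_erase_add _ _ (mem_univ 0),
      sum_congr rfl (g := fun _ => 1) fun a ha => by simpa using c_sq (ne_of_mem_erase ha)]
    simp [Nat.cast_sub (Fact.out : p.Prime).pos]
  · have hJ := jacobiSum_nontrivial_inv (quadraticChar_ne_one (rc hp))
    rw [(quadraticChar_isQuadratic _).inv, jacobiSum] at hJ
    have h1 : ∑ a, c R a * c R (1 - a : ZMod p) = -c R (-1 : ZMod p) := by
      simpa [c] using congrArg (Int.cast : ℤ → R) hJ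
    have hd : u - w ≠ 0 := sub_ne_zero.2 h
    rw [← Equiv.sum_comp ((Equiv.mulLeft₀ _ hd).trans (Equiv.addLeft (-u))),
      sum_congr rfl (g := fun a => c R (-1 : ZMod p) * (c R a * c R (1 - a))) fun a _ => ?_,
      ← mul_sum, h1, mul_neg, c_sq (by simp), zero_sub]
    simp only [Equiv.trans_apply, Equiv.mulLeft₀_apply, Equiv.coe_addLeft]
    rw [add_neg_cancel_left, show w + (-u + (u - w) * a) = (u - w) * -(1 - a) by ring, c_mul,
      c_mul, c_neg]
    linear_combination c R (-1 : ZMod p) * (c R a * c R (1 - a)) * c_sq (R := R) hd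

lemma half {M : Type*} [AddCommMonoid M] (g : ZMod p → M) :
    ∑ a, g a = g 0 + ∑ j : Fin n, (g (e p j) + g (-e p j)) := by
  rw [Lib.helper20.Quad.sum_zmod, congrArg range hp, Lib.helper20.Quad.half_sum,
    ← Fin.sum_univ_eq_sum_range (fun k => g (k + 1 : ℕ) + g (2 * n - k : ℕ)), Nat.cast_zero]
  congr 1
  refine sum_congr rfl fun j _ => ?_
  have := congrArg (Nat.cast : ℕ → ZMod p) hp
  rw [Nat.cast_sub (by omega), e]
  congr 2
  · push_cast; rfl
  · simp only [CharP.cast_eq_zero] at this
    push_cast at this ⊢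
    linear_combination -this

lemma nz {k : ℕ} (h0 : 0 < k) (h1 : k < p) : (k : ZMod p) ≠ 0 := fun h => by
  have := Nat.le_of_dvd h0 ((ZMod.natCast_eq_zero_iff k p).1 h)
  omega

lemma e_ne (j : Fin n) : e p j ≠ 0 := by
  simpa [e] using nz hp (k := j + 1) (by omega) (by omega)

lemma e_add (j k : Fin n) : e p j + e p k ≠ 0 := by
  simpa [e] using nz hp (k := j + 1 + (k + 1)) (by omega) (by omega)

lemma e_inj {j k : Fin n} : e p j = e p k ↔ j = k := by
  refine ⟨fun h => Fin.ext ?_, fun h => h ▸ rfl⟩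
  have := congrArg ZMod.val (add_right_cancel h)
  rwa [ZMod.val_cast_of_lt (by omega), ZMod.val_cast_of_lt (by omega)] at this

lemma row (j : Fin n) : ∑ k, A R p n 1 j k = -c R (e p j) := by
  have := half hp fun a => c R (e p j + 1 * a)
  rw [c_sum hp _ _ one_ne_zero] at this
  simp only [A, of_apply, Int.cast_one, one_mul, add_zero, sub_eq_add_neg] at *
  linear_combination -this

lemma col (k : Fin n) : ∑ j, c R (e p j) * A R p n 1 j k = -1 := by
  have := half hp fun a => c R (0 + a) * c R (e p k + a)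
  rw [jac hp, if_neg (e_ne hp k).symm] at this
  simp only [zero_add, c_zero, zero_mul, zero_sub] at this
  refine (sum_congr rfl fun j _ => ?_).trans this.symm
  rw [A, of_apply, show e p k + -e p j = -(e p j - e p k) by ring, c_neg, c_neg (e p j - _),
    add_comm (e p k)]
  push_cast
  linear_combination -c R (e p j) * c R (e p j - e p k) * c_sq (R := R) (a := (-1 : ZMod p)) (by simp)

lemma gram {s : ℤ} (hs : s * s = 1) (j k : Fin n) : ∑ l, A R p n s j l * A R p n s k l =
    (if j = k then (p : R) else 0) - 1 - s * c R (-1 : ZMod p) -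
      (1 + s) * c R (e p j) * c R (e p k) := by
  have h1 := half hp fun a => c R (e p j + a) * c R (e p k + a) +
    s * c R (-1 : ZMod p) * (c R (e p j + a) * c R (-e p k + a))
  rw [sum_add_distrib, ← mul_sum, jac hp, jac hp, if_neg (c := _ = -_)
    (fun h => e_add hp j k (by simp [h]))] at h1
  simp only [e_inj hp, add_zero] at h1
  have h2 := c_sq (R := R) (a := (-1 : ZMod p)) (by simp)
  have h3 := congrArg (Int.cast : ℤ → R) hs
  push_cast at h3
  rw [c_neg (e p k), ← sum_congr rfl (f := fun l => A R p n s j l * A R p n s k l) fun l _ => ?_] at h1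
  · linear_combination -h1 - s * c R (e p j) * c R (e p k) * h2
  · simp only [A, of_apply]
    rw [show -e p k + e p l = -(e p k - e p l) by ring, show -e p k + -e p l = -(e p k + e p l) by
      ring, c_neg (_ + _), c_neg (_ - _), ← sub_eq_add_neg, ← sub_eq_add_neg]
    linear_combination c R (e p j - e p l) * c R (e p k - e p l) * h3 - s * (c R (e p j + e p l) *
      c R (e p k - e p l) + c R (e p j - e p l) * c R (e p k + e p l)) * h2

lemma sum_one (h : p % 4 = 1) : ∑ j : Fin n, c R (e p j) = 0 := by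
  have := half hp fun a => c ℤ (0 + 1 * a)
  rw [c_sum hp _ _ one_ne_zero] at this
  simp only [one_mul, zero_add, c_zero, c_m1 h, sum_add_distrib] at this
  have h2 : ∑ j : Fin n, c ℤ (e p j) = 0 := by omega
  simpa [c] using congrArg (Int.cast : ℤ → R) h2

lemma sum_sq : ∑ j : Fin n, c R (e p j) * c R (e p j) = n := by
  simp [c_sq (e_ne hp _)]

end Pool.Agent.H.MP_4f0cf1_nt
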