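import Pool.Agent.H.MP_4f0cf1_nt.A

set_option autoImplicit false
set_option linter.unusedSectionVars false
open Finset Matrix

namespace Pool.Agent.H.MP_4f0cf1_nt

variable {p n : ℕ} [Fact p.Prime] {R : Type*} [CommRing R]

lemma symm (h : p % 4 = 1) (s : ℤ) (j k : Fin n) : A R p n s j k = A R p n s k j := by
  rw [A, of_apply, of_apply, add_comm (e p j), ← c_m1 h (_ - _), neg_sub]

lemma two_leg (h : p % 2 = 1) : legendreSym p 2 = (-1) ^ ((p + 1) / 4) := by
  rw [legendreSym.at_two (by omega), ZMod.χ₈_nat_eq_if_mod_eight, if_neg (by omega)]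
  split_ifs with h1
  · exact (Even.neg_one_pow (Nat.even_iff.2 (by omega))).symm
  · exact (Odd.neg_one_pow (Nat.odd_iff.2 (by omega))).symm

variable (hp : p = 2 * n + 1)
include hp

lemma root : ∃ r t : ℂ, r * r = p ∧ t * n = 1 + r ∧ r ≠ 0 ∧ n * t * t = 2 * t + 2 := by
  have h1 : (n : ℂ) ≠ 0 := Nat.cast_ne_zero.2 (by have := (Fact.out : p.Prime).two_le; omega)
  have h2 : (√p : ℂ) * √p = p := by exact_mod_cast Real.mul_self_sqrt (Nat.cast_nonneg p)
  have h3 := congrArg (Nat.cast : ℕ → ℂ) hp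
  refine ⟨√p, (1 + √p) / n, h2, div_mul_cancel₀ _ h1, fun h => ?_, ?_⟩
  · rw [h, zero_mul] at h2
    exact (Fact.out : p.Prime).ne_zero (by exact_mod_cast h2.symm)
  · push_cast at h3
    field_simp
    linear_combination h2 + h3

lemma tr (h : p % 4 = 1) (s : ℤ) : ∑ j, A R p n s j j = 0 := by
  simp only [A, of_apply, sub_self, c_zero, mul_zero, add_zero, ← two_mul, c_mul, ← mul_sum,
    sum_one hp h]

lemma det_one' (h : p % 4 = 1) : (A ℤ p n 1).det = legendreSym p 2 * p ^ ((p - 5) / 4) := by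
  obtain ⟨r, t, h1, h2, h3, h4⟩ := root hp
  have h5 := upd (A ℂ p n 1) (of fun j => ![-c ℂ (e p j), -1]) (of fun j => ![1, c ℂ (e p j)])
    (of ![fun k => t * c ℂ (e p k), fun _ => t]) (by
      ext j i
      fin_cases i
      · simpa [mul_apply, symm h 1 j, mul_comm, neg_eq_iff_eq_neg] using col (R := ℂ) hp j
      · simp [mul_apply, row hp])
  obtain ⟨B, hB⟩ : ∃ B, B = A ℂ p n 1 + (of fun j => ![1, c ℂ (e p j)]) *
    (of ![fun k => t * c ℂ (e p k), fun _ => t]) := ⟨_, rfl⟩
  have h6 : ∀ j k, B j k = A ℂ p n 1 j k + t * c ℂ (e p k) + t * c ℂ (e p j) := fun j k => by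
    simp [hB, mul_apply]; ring
  obtain ⟨k, h7, h8⟩ := det_sq B r (by
    ext j k
    rw [mul_apply, sum_congr rfl (g := fun l => A ℂ p n 1 j l * A ℂ p n 1 k l + t * c ℂ (e p k) *
      A ℂ p n 1 j l + t * (c ℂ (e p l) * A ℂ p n 1 l j) + t * (c ℂ (e p l) * A ℂ p n 1 l k) +
      t * c ℂ (e p j) * A ℂ p n 1 k l + t * t * (c ℂ (e p j) + c ℂ (e p k)) * c ℂ (e p l) +
      t * t * (c ℂ (e p l) * c ℂ (e p l)) + t * t * c ℂ (e p j) * c ℂ (e p k)) fun l _ => by
        rw [h6, h6, symm h 1 l k, symm h 1 l j]; ring]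
    simp only [sum_add_distrib, ← mul_sum, gram hp (one_mul 1), row hp, col hp, sum_one hp h,
      sum_sq hp, c_m1 h, c_one, sum_const, card_univ, Fintype.card_fin, nsmul_eq_mul,
      Matrix.smul_apply, one_apply, smul_eq_mul, h1, mul_ite, mul_one, mul_zero]
    push_cast
    linear_combination (1 + c ℂ (e p j) * c ℂ (e p k)) * h4)
  simp only [trace, diag_apply, h6, sum_add_distrib, ← mul_sum, tr hp h, sum_one hp h, mul_zero,
    add_zero, Fintype.card_fin] at h7 h8
  have h9 : n = 2 * k := by exact_mod_cast sub_eq_zero.1 ((mul_eq_zero.1 h7.symm).resolve_left h3)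
  have h10 : p ≠ 1 := (Fact.out : p.Prime).ne_one
  rw [← hB, h8, det_fin_two, A_map] at h5
  generalize (A ℤ p n 1).det = d at *
  simp [vecMul, dotProduct, mul_assoc, ← mul_sum, sum_one hp h, sum_sq hp] at h5
  rw [two_leg (by omega), show (p + 1) / 4 = k by omega]
  obtain ⟨m, rfl⟩ : ∃ m, k = m + 1 := ⟨k - 1, by omega⟩
  rw [show (p - 5) / 4 = m by omega]
  apply Int.cast_injective (α := ℂ)
  apply mul_left_cancel₀ (mul_ne_zero h3 h3)
  rw [show r ^ n = r * r * (r * r) ^ m by rw [h9]; ring, h1] at h5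
  push_cast
  linear_combination -h5 + d * (1 - t * n - r) * h2 - (-1) ^ (m + 1) * p ^ m * h1

lemma minus (h : p % 4 = 1) : A R p n (-1) * A R p n (-1) = (p : R) • 1 := by
  ext j k
  simp [mul_apply, symm h _ _ k, gram hp, c_m1 h, one_apply]

lemma det_minus (h : p % 4 = 1) : (A ℂ p n (-1)).det = (-1) ^ (p / 4) * p ^ (p / 4) := by
  obtain ⟨r, t, h1, h2, h3, h4⟩ := root hp
  obtain ⟨k, h7, h8⟩ := det_sq (A ℂ p n (-1)) r (by rw [h1, minus hp h])
  simp only [trace, diag_apply, tr hp h, Fintype.card_fin] at h7 h8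
  have h9 : n = 2 * k := by exact_mod_cast sub_eq_zero.1 ((mul_eq_zero.1 h7.symm).resolve_left h3)
  rw [h8, show p / 4 = k by omega, ← h1, h9]
  ring

/-- The matrix of inversion modulo signs. -/
def P (p n : ℕ) : Matrix (Fin n) (Fin n) ℂ :=
  of fun j k => (if e p j * e p k = 1 then 1 else 0) + if e p j * e p k = -1 then 1 else 0

lemma P_sum (f : ZMod p → ℂ) (hf : ∀ a, f (-a) = f a) (j : Fin n) :
    ∑ l, P p n j l * f (e p l) = f (e p j)⁻¹ := by
  have := half hp fun a => if e p j * a = 1 then f a else 0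
  rw [sum_eq_single (e p j)⁻¹ (fun b _ hb => if_neg fun h => hb (eq_inv_of_mul_eq_one_right h))
    (by simp)] at this
  simpa [mul_inv_cancel₀ (e_ne hp j), P, add_mul, hf, neg_eq_iff_eq_neg] using this.symm

lemma P_det (h : p % 4 = 3) : (P p n).det = (-1) ^ (p / 4) := by
  obtain ⟨k, h7, h8⟩ := det_sq (P p n) 1 (by
    ext j k
    rw [mul_apply]
    refine (P_sum hp (fun a => (if a * e p k = 1 then 1 else 0) + if a * e p k = -1 then 1 else 0)
      (fun a => by simp [neg_eq_iff_eq_neg, add_comm]) j).trans ?_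
    have := e_add hp j k
    simp only [inv_mul_eq_iff_eq_mul₀ (e_ne hp j), mul_one, e_inj hp, one_smul, one_apply, eq_comm]
    rw [if_neg (c := _ * _ = _) fun h => this (by linear_combination -h), add_zero])
  have h1 := half hp fun a => if a = 1 then (1 : ℂ) else 0
  rw [trace, sum_congr rfl (g := fun j => (if e p j = 1 then 1 else 0) +
    if -e p j = 1 then 1 else 0) fun j _ => ?_] at h7
  · simp only [sum_ite_eq', mem_univ, if_true, zero_ne_one, if_false, zero_add] at h1
    rw [← h1, one_mul, Fintype.card_fin] at h7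
    have h9 : n = 2 * k + 1 := by exact_mod_cast (by linear_combination -h7 : (n : ℂ) = 2 * k + 1)
    rw [h8, show p / 4 = k by omega, one_pow, one_mul]
  · have h2 : e p j * e p j ≠ -1 := fun h2 => by
      have := c_sq (R := ℤ) (e_ne hp j)
      rw [← c_mul, h2, c_m3 h, c_one] at this
      omega
    have h3 : (1 : ZMod p) ≠ -1 := fun h3 => by
      have := c_m3 (R := ℤ) h (1 : ZMod p)
      rw [← h3, c_one] at this
      omega
    simp only [diag_apply, P, of_apply, if_neg h2, add_zero, mul_self_eq_one_iff, neg_eq_iff_eq_neg]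
    by_cases h4 : e p j = 1
    · simp [h4, h3]
    · simp [h4]

lemma sq_sum (f : ZMod p → ℂ) : ∑ a, f (a ^ 2) = ∑ t, (c ℂ t + 1) * f t := by
  rw [← sum_fiberwise' univ (fun a : ZMod p => a ^ 2) f]
  refine sum_congr rfl fun t _ => ?_
  have := congrArg (Int.cast : ℤ → ℂ) (quadraticChar_card_sqrts (rc hp) t)
  rw [sum_const, nsmul_eq_mul, c]
  simp only [Set.toFinset_ofPred] at this
  push_cast at this
  rw [this]

lemma det_three (h : p % 4 = 3) : ∃ k : ℕ, ∑ j : Fin n, c ℤ (e p j) = n - 2 * k ∧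
    (A ℤ p n 1).det = -(-1) ^ k * p ^ ((p - 3) / 4) := by
  obtain ⟨r, t, h1, h2, h3, h4⟩ := root hp
  obtain ⟨k, h5, h6⟩ := det_sq (diagonal fun j : Fin n => c ℂ (e p j)) 1 (by
    simp [diagonal_mul_diagonal, c_sq (e_ne hp _)])
  refine ⟨k, ?_, ?_⟩
  · apply Int.cast_injective (α := ℂ)
    simpa [c] using h5
  obtain ⟨S, hS⟩ : ∃ S, S = P p n * (diagonal (fun j : Fin n => c ℂ (e p j)) * A ℂ p n 1) :=
    ⟨_, rfl⟩
  have s1 : ∀ j k, S j k = c ℂ (1 + e p j * e p k) + c ℂ (1 + e p j * -e p k) := fun j k => by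
    have := P_sum hp (fun a => c ℂ a * (c ℂ (a + e p k) + c ℂ (a - e p k))) (fun a => by
      rw [show -a + e p k = -(a - e p k) by ring, show -a - e p k = -(a + e p k) by ring]
      simp only [c_m3 h]; ring) j
    have h0 := e_ne hp j
    rw [show (e p j)⁻¹ + e p k = (e p j)⁻¹ * (1 + e p j * e p k) by field_simp,
      show (e p j)⁻¹ - e p k = (e p j)⁻¹ * (1 + e p j * -e p k) by field_simp; ring, c_mul, c_mul,
      ← mul_add, ← mul_assoc, c_sq (inv_ne_zero h0), one_mul] at this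
    simpa [hS, mul_apply (M := P p n), A] using this
  have s2 : ∀ j, ∑ l, S j l = -1 := fun j => by
    have := half hp fun a => c ℂ (1 + e p j * a)
    rw [c_sum hp _ _ (e_ne hp j)] at this
    simp only [s1, mul_zero, add_zero, c_one] at *
    linear_combination -this
  have s3 : ∀ j k, S j k = S k j := fun j k => by rw [s1, s1, mul_neg, mul_neg, mul_comm]
  have s4 : ∀ u w : ZMod p, u ≠ 0 → w ≠ 0 → ∑ a, c ℂ (1 + u * a) * c ℂ (1 + w * a) =
      c ℂ u * c ℂ w * ((if u = w then (p : ℂ) else 0) - 1) := fun u w hu hw => by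
    rw [← if_congr inv_inj rfl rfl, ← jac hp, mul_sum]
    refine sum_congr rfl fun a _ => ?_
    rw [← mul_inv_cancel₀ hu, ← mul_add, c_mul, mul_inv_cancel₀ hu, ← mul_inv_cancel₀ hw, ← mul_add,
      c_mul]
    ring
  have s5 : ∀ j k, ∑ l, S j l * S k l = (if j = k then (p : ℂ) else 0) - 2 := fun j k => by
    have := half hp fun a => c ℂ (1 + e p j * a) * c ℂ (1 + e p k * a) +
      c ℂ (1 + e p j * a) * c ℂ (1 + -e p k * a)
    rw [sum_add_distrib, s4 _ _ (e_ne hp j) (e_ne hp k), s4 _ _ (e_ne hp j) (by simp [e_ne hp]),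
      if_neg (c := _ = -_) (fun h => e_add hp j k (by simp [h])), c_m3 h,
      ← sum_congr rfl (f := fun l => S j l * S k l) fun l _ => by
        simp only [s1, mul_neg, neg_mul, neg_neg]; ring] at this
    simp only [e_inj hp, mul_zero, add_zero, c_one] at this
    split_ifs at * with hjk
    · rw [hjk] at *
      linear_combination -this + p * c_sq (R := ℂ) (e_ne hp k)
    · linear_combination -this
  have s6 : ∑ j, S j j = -1 := by
    have a1 := half hp fun a => c ℂ (1 + a ^ 2) + -(c ℂ (1 + a) * c ℂ (-1 + a))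
    have a2 := jac (R := ℂ) hp 0 1
    have a3 := c_sum (R := ℂ) hp 1 1 one_ne_zero
    have h3 : (1 : ZMod p) ≠ -1 := fun h3 => by
      have := c_m3 (R := ℤ) h (1 : ZMod p)
      rw [← h3, c_one] at this
      omega
    rw [sum_add_distrib, sum_neg_distrib, jac hp, if_neg h3, sq_sum hp fun t => c ℂ (1 + t),
      ← sum_congr rfl (f := fun l => 2 * S l l) fun l _ => by
        rw [s1, ← c_mul, ← c_mul, ← c_m3 h, ← c_m3 h]; ring_nf, ← mul_sum] at a1
    simp only [zero_add, one_mul, add_mul, sum_add_distrib, zero_ne_one, if_false, add_zero,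
      c_m3 h, c_one, zero_pow two_ne_zero] at a1 a2 a3
    linear_combination (-a1 + a2 + a3) / 2
  have h7 := upd S (of fun _ (_ : Fin 1) => -1) (of fun _ _ => 1) (of fun _ _ => t) (by
    ext j i
    simp [mul_apply, s2])
  obtain ⟨B, hB⟩ : ∃ B, B = S + (of fun _ (_ : Fin 1) => (1 : ℂ)) *
    (of fun (_ : Fin 1) (_ : Fin n) => t) := ⟨_, rfl⟩
  have h8 : ∀ j k, B j k = S j k + t := fun j k => by simp [hB, mul_apply]
  obtain ⟨m, h9, h10⟩ := det_sq B r (by
    ext j k
    rw [mul_apply, sum_congr rfl (g := fun l => S j l * S k l + t * S j l + t * S k l + t * t)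
      fun l _ => by rw [h8, h8, s3 l k]; ring]
    simp only [sum_add_distrib, ← mul_sum, s5, s2, sum_const, card_univ, Fintype.card_fin,
      nsmul_eq_mul, Matrix.smul_apply, one_apply, smul_eq_mul, h1, mul_ite, mul_one, mul_zero]
    linear_combination h4)
  simp only [trace, diag_apply, h8, sum_add_distrib, s6, sum_const, card_univ, nsmul_eq_mul,
    Fintype.card_fin, one_pow, one_mul] at h9 h10 h6
  have h11 : n = 2 * m + 1 := by
    have : (n : ℂ) = 2 * m + 1 := mul_left_cancel₀ h3 (by linear_combination h2 - h9)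
    exact_mod_cast this
  rw [← hB, h10, det_fin_one, hS, det_mul, det_mul, P_det hp h, h6, A_map,
    show p / 4 = m by omega, show r ^ n = r * (r * r) ^ m by rw [h11]; ring, h1] at h7
  generalize (A ℤ p n 1).det = d at *
  simp [mul_apply] at h7
  rw [show (p - 3) / 4 = m by omega]
  apply Int.cast_injective (α := ℂ)
  apply mul_left_cancel₀ (mul_ne_zero h3 (pow_ne_zero (m + k) (neg_ne_zero.2 one_ne_zero)))
  have h12 : (-1 : ℂ) ^ k * (-1) ^ k = 1 := by rw [← mul_pow]; simp
  push_cast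
  linear_combination h7 - (-1) ^ m * (-1) ^ k * d * h2 + r * (-1) ^ m * p ^ m * h12

lemma det_h (h : p % 4 = 3) (h3 : 3 < p) {K : Type*} [Field K] [NumberField K]
    (h2 : Module.finrank ℚ K = 2) {s : K} (hs : s ^ 2 = -p) :
    ∑ j : Fin n, c R (e p j) = (2 - c R (2 : ZMod p)) * NumberField.classNumber K ∧
    NumberField.classNumber K % 2 = 1 ∧ (A R p n 1).det =
      (-1) ^ ((NumberField.classNumber K - 1) / 2) * p ^ ((p - 3) / 4) := by
  obtain ⟨k, h4, h5⟩ := det_three hp h
  have h6 := Lib.helper20.Quad.h_half h2 (by rwa [← sq]) h h3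
  rw [show p / 2 = n by omega, ← Fin.sum_univ_eq_sum_range (fun k => legendreSym p (k + 1))] at h6
  have h7 : ∑ j : Fin n, legendreSym p (j + 1) = ∑ j : Fin n, c ℤ (e p j) :=
    sum_congr rfl fun j _ => by simp [c, e, legendreSym]
  have h8 := congrArg (Int.cast : ℤ → R) h6
  rw [h7, h4, two_leg (by omega)] at h6
  generalize NumberField.classNumber K = w at *
  have h9 : w % 2 = 1 ∧ ((w - 1) / 2 + k) % 2 = 1 := by
    rcases Nat.even_or_odd ((p + 1) / 4) with a | a <;> rw [a.neg_one_pow] at h6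
    · have := Nat.even_iff.1 a
      omega
    · have := Nat.odd_iff.1 a
      omega
  refine ⟨by simpa [c, e, legendreSym] using h8.symm, h9.1, ?_⟩
  rw [A_map, h5, neg_one_pow_eq_pow_mod_two, neg_one_pow_eq_pow_mod_two (n := (w - 1) / 2)]
  rcases Nat.mod_two_eq_zero_or_one k with a | a
  · simp [a, show (w - 1) / 2 % 2 = 1 by omega]
  · simp [a, show (w - 1) / 2 % 2 = 0 by omega]

end Pool.Agent.H.MP_4f0cf1_nt
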