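import Pool.Agent.H.MP_4f0cf1_nt.B

set_option autoImplicit false
set_option linter.unusedSectionVars false
open Finset Matrix

namespace Pool.Agent.H.MP_4f0cf1_nt

variable {p n : ℕ} [Fact p.Prime] {R : Type*} [CommRing R]

/-- A bordered matrix. -/
def bord (T : Matrix (Fin n) (Fin n) R) (a b : R) : Matrix (Fin (n + 1)) (Fin (n + 1)) R :=
  of fun j k => Fin.cases (Fin.cases b (fun _ => 0) k) (fun j => Fin.cases a (T j) k) j

lemma bord_det (T : Matrix (Fin n) (Fin n) R) (a b : R) : (bord T a b).det = b * T.det := by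
  rw [det_succ_row_zero, Fin.sum_univ_succ]
  simp [bord]
  rfl

variable (hp : p = 2 * n + 1)
include hp

lemma first : (of fun j k : Fin n => c R (e p j + e p k) + c R (e p j - e p k) +
    c R (e p j * e p k)).det = (A R p n 1).det * (1 - ∑ j : Fin n, c R (e p j)) := by
  have := upd (A R p n 1) (of fun _ (_ : Fin 1) => -1) (of fun j _ => c R (e p j))
    (of fun _ k => c R (e p k)) (by ext j i; simp [mul_apply, row hp])
  rw [det_fin_one] at this
  simp only [Matrix.add_apply, one_apply_eq, mul_apply, of_apply, mul_neg, mul_one,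
    sum_neg_distrib, ← sub_eq_add_neg] at this
  rw [← this]
  congr 1
  ext j k
  simp [A, mul_apply, c_mul]

lemma q1_one (h : p % 4 = 1) (x y z w : R) : (of fun j k : Fin (n + 1) => x +
    c R ((j : ℕ) + (k : ℕ) : ZMod p) + c R ((j : ℕ) - (k : ℕ) : ZMod p) + c R ((j : ℕ) : ZMod p) * y +
    c R ((k : ℕ) : ZMod p) * z + c R ((j : ℕ) * (k : ℕ) : ZMod p) * w).det =
      (A R p n 1).det * (p ^ 2 * x) := by
  have := upd (bord (A R p n 1) 0 1)
    (of fun j => Fin.cases ![1, 0, 0] (fun j => ![0, -1, -c R (e p j)]) j)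
    (of fun j => Fin.cases ![1, 0, 0] (fun j => ![0, c R (e p j), 1]) j)
    (of ![Fin.cases (x - 1) fun k => x + (z + 2) * c R (e p k),
      Fin.cases (2 + y) fun k => y + w * c R (e p k), Fin.cases x fun k => x + z * c R (e p k)])
    (by
      ext j i
      refine Fin.cases ?_ (fun j => ?_) j <;> fin_cases i <;>
        simp [mul_apply, Fin.sum_univ_succ, bord, row hp]
      simpa [symm h 1 j, mul_comm, neg_eq_iff_eq_neg] using col (R := R) hp j)
  rw [bord_det, det_fin_three] at this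
  simp [vecMul, dotProduct, Fin.sum_univ_succ, add_mul, mul_assoc, sum_add_distrib, ← mul_sum,
    sum_one hp h, sum_sq hp] at this
  rw [show (p : R) = 2 * n + 1 by simp [hp]]
  refine .trans (congrArg det ?_) (this.trans (by ring))
  ext j k
  refine Fin.cases ?_ (fun j => ?_) j <;> refine Fin.cases ?_ (fun k => ?_) k <;>
    simp [mul_apply, Fin.sum_univ_succ, bord, A, c_mul, e, c_m1 h, -neg_add_rev] <;> ring

lemma q1_three (h : p % 4 = 3) (x y z w : R) : (of fun j k : Fin (n + 1) => x +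
    c R ((j : ℕ) + (k : ℕ) : ZMod p) + c R ((j : ℕ) - (k : ℕ) : ZMod p) + c R ((j : ℕ) : ZMod p) * y +
    c R ((k : ℕ) : ZMod p) * z + c R ((j : ℕ) * (k : ℕ) : ZMod p) * w).det =
      (A R p n 1).det * (p * x + (∑ j : Fin n, c R (e p j)) * ((y + 2) * z - w * x)) := by
  have := upd (bord (A R p n 1) 1 1)
    (of fun j => Fin.cases ![1, 0] (fun _ => ![0, -1]) j)
    (of fun j => Fin.cases ![1, 0] (fun j => ![1, c R (e p j)]) j)
    (of ![Fin.cases (x - 1) fun k => x + z * c R (e p k),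
      Fin.cases (2 + y) fun k => y + w * c R (e p k)])
    (by
      ext j i
      refine Fin.cases ?_ (fun j => ?_) j <;> fin_cases i <;>
        simp [mul_apply, Fin.sum_univ_succ, bord, row hp])
  rw [bord_det, det_fin_two] at this
  simp [vecMul, dotProduct, Fin.sum_univ_succ, sum_add_distrib, ← mul_sum] at this
  rw [show (p : R) = 2 * n + 1 by simp [hp]]
  refine .trans (congrArg det ?_) (this.trans (by ring))
  ext j k
  refine Fin.cases ?_ (fun j => ?_) j <;> refine Fin.cases ?_ (fun k => ?_) k <;>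
    simp [mul_apply, Fin.sum_univ_succ, bord, A, c_mul, e, c_m3 h, -neg_add_rev] <;> ring

lemma q2 (h : p % 4 = 1) : ∃ d : ℤ, ∀ (R : Type) [CommRing R] (y z : R),
    (of fun j k : Fin (n + 1) => c R ((j : ℕ) + (k : ℕ) : ZMod p) - c R ((j : ℕ) - (k : ℕ) : ZMod p) +
      c R ((j : ℕ) : ZMod p) * y + c R ((k : ℕ) : ZMod p) * z).det =
      4 * p ^ ((p - 5) / 4) * d * y * z := by
  obtain ⟨d, hd⟩ := sym_sum (fun j k : Fin n => c ℤ (e p j) * c ℤ (e p k) * c ℤ (e p j - e p k))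
    (fun j k => by rw [← c_m1 h (_ - _), neg_sub, mul_comm (c ℤ (e p j))]) univ
  have h1 : ∑ k, c ℤ (e p k) * ∑ j, c ℤ (e p j) * A ℤ p n 1 j k = 0 := by
    simp [col hp, sum_one hp h]
  have h2 : ∑ j, c ℤ (e p j) * ∑ k, A ℤ p n (-1) j k * c ℤ (e p k) = -4 * d := by
    simp only [sub_self, c_zero, mul_zero, sum_const_zero, zero_add] at hd
    simp only [mul_sum] at h1 ⊢
    rw [sum_comm] at h1
    rw [show -4 * d = 0 - 2 * (2 * d) by ring, ← hd, ← h1]
    simp only [mul_sum, ← sum_sub_distrib, A, of_apply]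
    exact sum_congr rfl fun j _ => sum_congr rfl fun k _ => by push_cast; ring
  obtain ⟨M, hM⟩ : ∃ M : Matrix (Fin (n + 1)) (Fin (n + 1)) ℤ, M = of fun j k => Fin.cases
    (Fin.cases 0 (fun k => c ℤ (e p k)) k) (fun j => Fin.cases (c ℤ (e p j)) (A ℤ p n (-1) j) k) j :=
    ⟨_, rfl⟩
  have h3 : (p : ℂ) ≠ 0 := Nat.cast_ne_zero.2 (by omega)
  have h4 : M.det = 4 * p ^ ((p - 5) / 4) * ((-1) ^ (p / 4) * d) := by
    have := upd (bord (A ℂ p n (-1)) 0 1) (of fun j => Fin.cases ![1, 0]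
        (fun j => ![0, (p : ℂ)⁻¹ * (A ℂ p n (-1) *ᵥ fun k => c ℂ (e p k)) j]) j)
      (of fun j => Fin.cases ![1, 0] (fun j => ![0, c ℂ (e p j)]) j)
      (of ![Fin.cases (-1) fun k => c ℂ (e p k), Fin.cases 1 fun _ => 0]) (by
        ext j i
        refine Fin.cases ?_ (fun j => ?_) j <;> fin_cases i <;>
          simp [mul_apply, Fin.sum_univ_succ, bord]
        have := congrFun (congrArg (· *ᵥ fun k => c ℂ (e p k)) (minus (R := ℂ) hp h)) j
        simp only [← mulVec_mulVec, smul_mulVec, one_mulVec, Pi.smul_apply, smul_eq_mul] at this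
        simp only [mul_left_comm _ (p : ℂ)⁻¹, ← mul_sum]
        rw [inv_mul_eq_iff_eq_mul₀ h3, ← this]
        rfl)
    have h5 := congrArg (Int.cast : ℤ → ℂ) h2
    rw [bord_det, det_fin_two, det_minus hp h] at this
    simp [vecMul, dotProduct, Fin.sum_univ_succ, mul_left_comm _ (p : ℂ)⁻¹, ← mul_sum, mulVec] at this
    apply Int.cast_injective (α := ℂ)
    have h6 : p / 4 = (p - 5) / 4 + 1 := by have := (Fact.out : p.Prime).two_le; omega
    rw [Int.cast_det]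
    refine .trans (congrArg det ?_) (this.trans ?_)
    · ext j k
      refine Fin.cases ?_ (fun j => ?_) j <;> refine Fin.cases ?_ (fun k => ?_) k <;>
        simp [mul_apply, bord, hM, A, c]
    · rw [show ∑ j, c ℂ (e p j) * ∑ k, A ℂ p n (-1) j k * c ℂ (e p k) = -4 * d by
        simpa [A, c] using h5, h6]
      push_cast
      field_simp
      ring
  refine ⟨(-1) ^ (p / 4) * d, fun R _ y z => ?_⟩
  have h7 : (bord 1 z z * M.map (Int.cast : ℤ → R) * (bord 1 y y)ᵀ).det = z * M.det * y := by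
    simp [bord_det, Int.cast_det]
  refine .trans (congrArg det ?_) (h7.trans (by rw [h4]; push_cast; ring))
  have h8 : ∀ a : ZMod p, ((c ℤ a : ℤ) : R) = c R a := fun a => rfl
  ext j k
  refine Fin.cases ?_ (fun j => ?_) j <;> refine Fin.cases ?_ (fun k => ?_) k <;>
    simp [mul_apply, Fin.sum_univ_succ, bord, hM, A, h8, e, c_m1 h, one_apply, -neg_add_rev] <;>
    ring

lemma sixteen (h : p % 4 = 3) : ∃ q : ℤ, (∑ j : Fin n, c ℤ (e p j)) ^ 2 +
    n * ∑ j, c ℤ (e p j) * ∑ l, A ℤ p n 1 l j = 16 * q := by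
  have pm : ∀ a : ZMod p, a ≠ 0 → c ℤ a = 1 - 2 * ((1 - c ℤ a) / 2) ∧
      (1 - c ℤ a) / 2 * ((1 - c ℤ a) / 2) = (1 - c ℤ a) / 2 := fun a ha => by
    rcases mul_self_eq_one_iff.1 (c_sq (R := ℤ) ha) with h | h <;> simp [h]
  obtain ⟨i, hi⟩ : ∃ i : Fin n → ℤ, ∀ j, c ℤ (e p j) = 1 - 2 * i j ∧ i j * i j = i j :=
    ⟨_, fun j => pm _ (e_ne hp j)⟩
  obtain ⟨d, hd⟩ := sym_sum (fun j k : Fin n => i j * i k * ((1 - c ℤ (e p j + e p k)) / 2))
    (fun j k => by rw [add_comm, mul_comm (i j)]) univ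
  obtain ⟨g, hg⟩ : ∃ g : Fin n → Fin n → ℤ, g = fun j k =>
    c ℤ (e p j) * c ℤ (e p k) - 1 - c ℤ (e p j) - c ℤ (e p k) := ⟨_, rfl⟩
  have a1 : ∑ j, ∑ k, g j k * c ℤ (e p j - e p k) = 0 := by
    have : ∑ j, ∑ k, g j k * c ℤ (e p j - e p k) = -∑ j, ∑ k, g j k * c ℤ (e p j - e p k) := by
      conv_lhs => rw [sum_comm]
      simp only [← sum_neg_distrib, ← mul_neg, ← c_m3 h, neg_sub, hg]
      exact sum_congr rfl fun j _ => sum_congr rfl fun k _ => by ring
    omega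
  have a2 : ∑ k, ∑ j, c ℤ (e p j) * A ℤ p n 1 j k = -n := by simp [col hp]
  have a3 : ∑ j, ∑ k, A ℤ p n 1 j k = -∑ j : Fin n, c ℤ (e p j) := by simp [row hp]
  have a4 : ∑ k, c ℤ (e p k) * ∑ j, c ℤ (e p j) * A ℤ p n 1 j k = -∑ j : Fin n, c ℤ (e p j) := by
    simp [col hp]
  have a5 : ∑ j : Fin n, c ℤ (e p j) = n - 2 * ∑ j, i j := by simp [(hi _).1, mul_sum]
  have a6 : 2 * ∑ j, i j * i j * ((1 - c ℤ (e p j + e p j)) / 2) =
      (1 + c ℤ (2 : ZMod p)) * ∑ j, i j := by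
    simp only [mul_sum]
    refine sum_congr rfl fun j _ => ?_
    have b1 := (pm _ (e_add hp j j)).1
    have b2 := hi j
    generalize (1 - c ℤ (e p j + e p j)) / 2 = u at *
    rw [← two_mul, c_mul, b2.1] at b1
    linear_combination i j * b1 + (2 * u + 2 * c ℤ (2 : ZMod p)) * b2.2
  have a7 : ∑ j, c ℤ (e p j) * ∑ l, A ℤ p n 1 l j + ∑ k, ∑ j, c ℤ (e p j) * A ℤ p n 1 j k +
      4 * (∑ j, i j) * ∑ j, i j = 8 * ∑ j, ∑ k, i j * i k * ((1 - c ℤ (e p j + e p k)) / 2) +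
      ∑ j, ∑ k, A ℤ p n 1 j k + ∑ k, c ℤ (e p k) * ∑ j, c ℤ (e p j) * A ℤ p n 1 j k +
      ∑ j, ∑ k, g j k * c ℤ (e p j - e p k) := by
    rw [mul_assoc, sum_mul_sum]
    simp only [mul_sum, ← sum_add_distrib]
    refine sum_congr rfl fun j _ => sum_congr rfl fun k _ => ?_
    have b1 := (pm _ (e_add hp j k)).1
    generalize (1 - c ℤ (e p j + e p k)) / 2 = u at *
    simp only [A, of_apply, hg]
    rw [add_comm (e p k), ← neg_sub (e p j), c_m3 h, b1, (hi j).1, (hi k).1]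
    push_cast
    ring
  rw [a1, a2, a3, a4, hd] at a7
  have a8 := c_leg (R := ℤ) (p := p) 2
  rw [two_leg (by omega)] at a8
  obtain ⟨u, hu⟩ := Int.even_mul_succ_self (∑ j, i j)
  rw [a5] at *
  generalize ∑ j, i j = m at *
  push_cast at a8
  rcases Nat.even_or_odd ((p + 1) / 4) with a | a <;> rw [a.neg_one_pow] at a8 <;> rw [← a8] at a6
  · have := Nat.even_iff.1 a
    obtain ⟨t, ht⟩ : ∃ t : ℤ, (n : ℤ) = 4 * t + 3 := ⟨n / 4, by omega⟩
    exact ⟨-u + 2 * m + 3 * d - t * (m * m - 2 * m - 4 * d), by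
      rw [ht] at a7 ⊢; linear_combination (4 * t + 3) * (a7 + 4 * a6) - 8 * hu⟩
  · have := Nat.odd_iff.1 a
    obtain ⟨t, ht⟩ : ∃ t : ℤ, (n : ℤ) = 4 * t + 1 := ⟨n / 4, by omega⟩
    exact ⟨d - t * (m * m - 4 * d), by
      rw [ht] at a7 ⊢; linear_combination (4 * t + 1) * (a7 + 4 * a6)⟩

lemma last (h : p % 4 = 3) : ∃ q : ℤ, ∀ x y w : ℂ, (of fun j k : Fin n => x + c ℂ (e p j + e p k) +
    c ℂ (e p j - e p k) + c ℂ (e p j) * y + c ℂ (e p j * e p k) * w).det = (A ℂ p n 1).det *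
      (1 - n * y - (∑ j : Fin n, c ℂ (e p j)) * (w + x) + 16 * q / p * w * x) := by
  obtain ⟨q, hq⟩ := sixteen hp h
  refine ⟨q, fun x y w => ?_⟩
  have h1 : (∑ j : Fin n, c ℂ (e p j)) ^ 2 + n * ∑ j, c ℂ (e p j) * ∑ l, A ℂ p n 1 l j = 16 * q := by
    simpa [A, c] using congrArg (Int.cast : ℤ → ℂ) hq
  have h2 : ∑ j, ∑ l, A ℂ p n 1 l j = -∑ j : Fin n, c ℂ (e p j) := by
    rw [sum_comm]; simp [row hp]
  have h3 : (p : ℂ) ≠ 0 := Nat.cast_ne_zero.2 (by omega)
  obtain ⟨B, hB⟩ : ∃ B, B = ∑ j : Fin n, c ℂ (e p j) := ⟨_, rfl⟩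
  have := upd (A ℂ p n 1) (of fun j => ![(p : ℂ)⁻¹ * (∑ l, A ℂ p n 1 l j - 2 * B), -1])
    (of fun j => ![1, c ℂ (e p j)]) (of ![fun _ => x, fun k => y + w * c ℂ (e p k)]) (by
      ext j i
      fin_cases i <;> simp [mul_apply, row hp]
      have h5 : ∑ k, A ℂ p n 1 j k * ∑ l, A ℂ p n 1 l k = p - 2 * c ℂ (e p j) * B := by
        simp only [mul_sum]
        rw [sum_comm]
        simp [gram hp, c_m3 h, ← mul_sum, ← hB, one_add_one_eq_two]
      simp only [mul_left_comm _ (p : ℂ)⁻¹, ← mul_sum, mul_sub, sum_sub_distrib, ← sum_mul, row hp, h5]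
      field_simp
      ring)
  rw [det_fin_two] at this
  simp [vecMul, dotProduct, add_mul, mul_sub, sum_add_distrib, ← mul_sum, ← hB, h2, mul_assoc,
    mul_left_comm _ (p : ℂ)⁻¹, ← sum_mul] at this
  refine .trans (congrArg det ?_) (this.trans ?_)
  · ext j k
    simp [mul_apply, A, c_mul]
    ring
  · rw [← h1, ← hB]
    have h4 := congrArg (Nat.cast : ℕ → ℂ) hp
    push_cast at h4
    field_simp
    rw [h4]
    ring

end Pool.Agent.H.MP_4f0cf1_nt
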